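import Pool.Agent.H556R2.Machine
import Pool.Agent.H620R2.GaugeQ.Defs

/-!
# Quantum and interactive classes relative to an oracle

The oracle machines `OTM`, the oracles and the classes `P`, `RP`, `BPP`, `NP`, ... are those of
`Pool.Agent.H556R2.Machine`; the quantum gates (Hadamard gates, multiply controlled not gates,
oracle gates) and their action are those of `Pool.Agent.H620R2.GaugeQ.Defs`.
-/

set_option autoImplicit false

namespace Pool.Agent.Y593.Q

open H556R2
open Pool.Agent.H620R2.Gauge (Gate rd circAct initSt)

/-! ### Descriptions of circuits -/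

/-- The numbers coded in unary by a string: `1 1 0 1 0 0` codes `2, 1, 0, 0` (the last number is
the number of ones after the last zero). -/
def nums : List Bool → ℕ → List ℕ
  | [], k => [k]
  | true :: l, k => nums l (k + 1)
  | false :: l, k => k :: nums l 0

/-- The gates coded by a list of numbers. The number `0` is skipped; `1, k, c, i₁, …, i_c` is the
not gate on the qubit `k` controlled by the qubits `i₁, …, i_c`; `2, k, c, i₁, …, i_c` is the oracle
gate which flips the qubit `k` if the string in the qubits `i₁, …, i_c` is in the oracle; every
other number followed by `i` is the Hadamard gate on the qubit `i`. (Missing numbers at the end are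
read as `0`, missing control qubits are ignored.) -/
def gates : List ℕ → List Gate
  | [] => []
  | 0 :: l => gates l
  | 1 :: l => Sum.inr (false, (l.drop 2).take (l.getD 1 0), l.getD 0 0) ::
      gates (l.drop (2 + l.getD 1 0))
  | 2 :: l => Sum.inr (true, (l.drop 2).take (l.getD 1 0), l.getD 0 0) ::
      gates (l.drop (2 + l.getD 1 0))
  | (_ + 3) :: l => Sum.inl (l.getD 0 0) :: gates (l.drop 1)
termination_by l => l.length
decreasing_by all_goals simp; try omega

/-- The circuit described by a string. -/
def circ (u : List Bool) : List Gate := gates (nums u 0)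

/-! ### Quantum machines -/

/-- A probabilistic polynomial-time oracle machine which prints a quantum circuit: on an input of
length `n` it tosses `m(n)` coins and prints (bit by bit) the description, of length `d(n)`, of a
circuit on `q(n) + 1 + w(n)` qubits, each bit in time `p(n)`; the last `w(n)` qubits are those of a
quantum proof. -/
structure QM where
  M : OTM
  m : Polynomial ℕ
  d : Polynomial ℕ
  p : Polynomial ℕ
  q : Polynomial ℕ
  w : Polynomial ℕ

/-- The number of qubits. -/
def QM.num (E : QM) (n : ℕ) : ℕ := E.q.eval n + 1 + E.w.eval n

/-- The description of the circuit printed on input `x` with coins `r`: its bit number `j` is the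
output of the machine on input `x` and second input `r` followed by `j` ones. -/
def QM.desc (E : QM) (A : Oracle) (x r : List Bool) : List Bool :=
  List.ofFn fun j : Fin (E.d.eval x.length) =>
    decide (outcome A E.M x (r ++ List.replicate j.1 true) (E.p.eval x.length) = some true)

/-- The probability that the measurement of the qubit `0` gives `1`, after the circuit `l` has been
applied to the state `φ`. -/
noncomputable def accPr (A : Oracle) (l : List Gate) {k : ℕ} (φ : (Fin k → Bool) → ℝ) : ℝ :=
  ∑ s : Fin k → Bool, if rd s 0 then circAct A l φ s ^ 2 else 0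

/-- The probability that the machine `E` accepts `x`, if the initial state of the qubits is `φ`
(the average over the coins of the probability that the circuit accepts). -/
noncomputable def QM.acc (E : QM) (A : Oracle) (x : List Bool)
    (φ : (Fin (E.num x.length) → Bool) → ℝ) : ℝ :=
  (∑ r : Fin (E.m.eval x.length) → Bool, accPr A (circ (E.desc A x (List.ofFn r))) φ) /
    2 ^ (E.m.eval x.length)

/-- `φ` is a possible initial state of `E` with a quantum proof: a unit vector in which all qubits
but the last `w(n)` are `0`. (The gates are real, so real proofs are as good as complex ones.) -/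
def QM.Proof (E : QM) (n : ℕ) (φ : (Fin (E.num n) → Bool) → ℝ) : Prop :=
  ∑ s, φ s ^ 2 = 1 ∧
    ∀ s, φ s ≠ 0 → ∀ i : Fin (E.num n), i.1 < E.q.eval n + 1 → s i = false

/-- `BQP` relative to the oracle `A`. -/
def ClassBQP (A : Oracle) : Set Lang :=
  {L | ∃ E : QM, ∀ x : List Bool, (x ∈ L → 2 / 3 ≤ E.acc A x (initSt _)) ∧
    (x ∉ L → E.acc A x (initSt _) ≤ 1 / 3)}

/-- `QMA` relative to the oracle `A`. -/
def ClassQMA (A : Oracle) : Set Lang :=
  {L | ∃ E : QM, ∀ x : List Bool,
    (x ∈ L → ∃ φ, E.Proof x.length φ ∧ 2 / 3 ≤ E.acc A x φ) ∧
    (x ∉ L → ∀ φ, E.Proof x.length φ → E.acc A x φ ≤ 1 / 3)}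

/-- `coQMA` relative to `A`: the complements of the languages in `QMA`. -/
def ClassCoQMA (A : Oracle) : Set Lang := {L | Lᶜ ∈ ClassQMA A}

/-! ### Interactive proofs -/

/-- The value (times `2 ^ k`) of a game with `k` rounds in which a coin is tossed and a player
answers with a bit, if the history `h` at the end pays `a h`. -/
def cval (a : List Bool → ℕ) : ℕ → List Bool → ℕ
  | 0, h => a h
  | k + 1, h =>
    max (cval a k (h ++ [false, false])) (cval a k (h ++ [false, true])) +
      max (cval a k (h ++ [true, false])) (cval a k (h ++ [true, true]))

/-- A verifier of a public coin interactive proof: on an input of length `n` there are `k(n)`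
rounds in which the verifier sends a random bit and the prover answers with a bit; then the
verifier tosses `m(n)` more coins and decides in time `p(n)`. -/
structure PM where
  M : OTM
  k : Polynomial ℕ
  m : Polynomial ℕ
  p : Polynomial ℕ

/-- The number of choices of the coins. -/
def PM.tot (E : PM) (n : ℕ) : ℕ := 2 ^ (E.k.eval n + E.m.eval n)

/-- The number of choices of the last coins for which the verifier accepts after the history
`h`. -/
def PM.pay (E : PM) (A : Oracle) (x h : List Bool) : ℕ :=
  (Finset.univ.filter fun r : Fin (E.m.eval x.length) → Bool =>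
    outcome A E.M x (h ++ List.ofFn r) (E.p.eval x.length) = some true).card

/-- The largest probability (times `tot`) with which a prover can make the verifier accept. -/
def PM.val (E : PM) (A : Oracle) (x : List Bool) : ℕ :=
  cval (E.pay A x) (E.k.eval x.length) []

/-- `IP` relative to the oracle `A` (public coins, polynomially many rounds). -/
def ClassIP (A : Oracle) : Set Lang :=
  {L | ∃ E : PM, ∀ x : List Bool, (x ∈ L → 2 * E.tot x.length ≤ 3 * E.val A x) ∧
    (x ∉ L → 3 * E.val A x ≤ E.tot x.length)}

/-- `coIP` relative to `A`: the complements of the languages in `IP`. -/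
def ClassCoIP (A : Oracle) : Set Lang := {L | Lᶜ ∈ ClassIP A}

/-! ### Countability -/

instance : Countable QM := by
  have hf : Function.Injective (fun E : QM => (E.M, E.m, E.d, E.p, E.q, E.w)) := by
    rintro ⟨M, m, d, p, q, w⟩ ⟨M', m', d', p', q', w'⟩ h
    simp only [Prod.mk.injEq] at h
    obtain ⟨rfl, rfl, rfl, rfl, rfl, rfl⟩ := h
    rfl
  exact hf.countable

instance : Nonempty QM := ⟨⟨Classical.arbitrary _, 0, 0, 0, 0, 0⟩⟩

instance : Countable PM := by
  have hf : Function.Injective (fun E : PM => (E.M, E.k, E.m, E.p)) := by
    rintro ⟨M, k, m, p⟩ ⟨M', k', m', p'⟩ h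
    simp only [Prod.mk.injEq] at h
    obtain ⟨rfl, rfl, rfl, rfl⟩ := h
    rfl
  exact hf.countable

instance : Nonempty PM := ⟨⟨Classical.arbitrary _, 0, 0, 0⟩⟩

end Pool.Agent.Y593.Q
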