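import Pool.Agent.Y593.Q.Weigh
import Pool.Agent.H556R2.Classes

/-!
# Weights of machines and of families of machines
-/

set_option autoImplicit false

namespace Pool.Agent.Y593.Q

open H556R2 Finset

/-- The strings asked in a run. -/
theorem exists_asked (A : Oracle) (M : OTM) (x w : List Bool) (t : ℕ) :
    ∃ C : Finset (List Bool), C.card ≤ t ∧ (∀ v ∈ C, v.length ≤ t) ∧
      ∀ A' : Oracle, (∀ v ∈ C, A' v = A v) → outcome A' M x w t = outcome A M x w t := by
  classical
  obtain ⟨S, hS, hSf⟩ := certAt_outcome (W := fun B : List Bool → Bool => B) (M := M) (B := A)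
    (K := 1) (n := t) (x := x) (w := w) (fun v _ => ⟨{v}, by simp, fun B' hB' => by
      simpa using hB' v (Finset.mem_singleton_self v)⟩)
  refine ⟨S.filter fun v => v.length ≤ t, (Finset.card_filter_le _ _).trans (by simpa using hS),
    fun v hv => (Finset.mem_filter.1 hv).2, fun A' hA' => ?_⟩
  have h1 : outcome A' M x w t = outcome (fun v => if v.length ≤ t then A' v else A v) M x w t := by
    apply outcome_congr
    intro v hv
    rw [if_pos hv]
  rw [h1]
  apply hSf
  intro v hv
  split_ifs with h
  · exact hA' v (Finset.mem_filter.2 ⟨hv, h⟩)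
  · rfl

/-- A function of oracles is local at `A`, with few questions. -/
def AskAt {V : Type} (g : Oracle → V) (A : Oracle) (t : ℕ) : Prop :=
  ∃ C : Finset (List Bool), C.card ≤ t ∧ (∀ v ∈ C, v.length ≤ t) ∧
    ∀ A' : Oracle, (∀ v ∈ C, A' v = A v) → g A' = g A

/-- The conclusion of `Weighed` at one oracle, for a set of bad oracles. -/
def WAt (A : Oracle) (T : ℕ) (bad : Oracle → Prop) : Prop :=
  ∃ (F : Finset (List Bool)) (μ : List Bool → ℝ),
    (∀ v ∈ F, v.length ≤ T) ∧ (∀ v, 0 ≤ μ v) ∧ ∑ v ∈ F, μ v ≤ T ∧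
    ∀ A' : Oracle, bad A' → 1 ≤ ∑ v ∈ F with A v ≠ A' v, μ v

theorem weighed_iff {f : Oracle → Option Bool} {T : ℕ} : Weighed f T ↔
    ∀ A : Oracle, f A ≠ none → WAt A T fun A' => f A' ≠ none ∧ f A' ≠ f A := by
  constructor
  · intro h A hA
    obtain ⟨F, μ, h1, h2, h3, h4⟩ := h A hA
    exact ⟨F, μ, h1, h2, h3, fun A' hA' => h4 A' hA'.1 hA'.2⟩
  · intro h A hA
    obtain ⟨F, μ, h1, h2, h3, h4⟩ := h A hA
    exact ⟨F, μ, h1, h2, h3, fun A' hA' hA'' => h4 A' ⟨hA', hA''⟩⟩

theorem WAt.mono {A : Oracle} {T T' : ℕ} {bad bad' : Oracle → Prop} (h : WAt A T bad)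
    (hT : T ≤ T') (hb : ∀ A', bad' A' → bad A') : WAt A T' bad' := by
  obtain ⟨F, μ, h1, h2, h3, h4⟩ := h
  exact ⟨F, μ, fun v hv => (h1 v hv).trans hT, h2, h3.trans (by exact_mod_cast hT),
    fun A' hA' => h4 A' (hb A' hA')⟩

/-- Weights of two criteria may be added. -/
theorem WAt.or {A : Oracle} {T T' : ℕ} {bad bad' : Oracle → Prop} (h : WAt A T bad)
    (h' : WAt A T' bad') : WAt A (T + T') fun A' => bad A' ∨ bad' A' := by
  classical
  obtain ⟨F, μ, h1, h2, h3, h4⟩ := h
  obtain ⟨F', μ', h1', h2', h3', h4'⟩ := h'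
  refine ⟨F ∪ F', fun v => (if v ∈ F then μ v else 0) + (if v ∈ F' then μ' v else 0), ?_, ?_, ?_,
    ?_⟩
  · intro v hv
    rcases Finset.mem_union.1 hv with h | h
    · exact (h1 v h).trans (by omega)
    · exact (h1' v h).trans (by omega)
  · intro v
    have := h2 v
    have := h2' v
    beta_reduce
    split_ifs <;> positivity
  · rw [sum_add_distrib, ← sum_filter, ← sum_filter]
    have e1 : (F ∪ F').filter (fun v => v ∈ F) = F := by
      ext v
      simp only [mem_filter, mem_union]
      tauto
    have e2 : (F ∪ F').filter (fun v => v ∈ F') = F' := by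
      ext v
      simp only [mem_filter, mem_union]
      tauto
    rw [e1, e2]
    push_cast
    linarith
  · intro A' hA'
    have e1 : ((F ∪ F').filter (fun v => A v ≠ A' v)).filter (fun v => v ∈ F) =
        F.filter (fun v => A v ≠ A' v) := by
      ext v
      simp only [mem_filter, mem_union]
      tauto
    have e2 : ((F ∪ F').filter (fun v => A v ≠ A' v)).filter (fun v => v ∈ F') =
        F'.filter (fun v => A v ≠ A' v) := by
      ext v
      simp only [mem_filter, mem_union]
      tauto
    rw [sum_add_distrib, ← sum_filter, ← sum_filter, e1, e2]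
    have p1 : 0 ≤ ∑ v ∈ F with A v ≠ A' v, μ v := sum_nonneg fun v _ => h2 v
    have p2 : 0 ≤ ∑ v ∈ F' with A v ≠ A' v, μ' v := sum_nonneg fun v _ => h2' v
    rcases hA' with h | h
    · linarith [h4 A' h]
    · linarith [h4' A' h]

/-- One function with few questions. -/
theorem AskAt.wat {V : Type} {g : Oracle → V} {A : Oracle} {t : ℕ} (h : AskAt g A t) :
    WAt A t fun A' => g A' ≠ g A := by
  classical
  obtain ⟨C, h1, h2, h3⟩ := h
  refine ⟨C, fun _ => 1, h2, fun _ => zero_le_one, ?_, ?_⟩
  · simpa using h1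
  · intro A' hA'
    rw [sum_const, nsmul_eq_mul, mul_one]
    have : (C.filter fun v => A v ≠ A' v).Nonempty := by
      by_contra hno
      rw [Finset.not_nonempty_iff_eq_empty, Finset.filter_eq_empty_iff] at hno
      apply hA'
      apply h3
      intro v hv
      have := hno hv
      push Not at this
      exact this.symm
    exact_mod_cast Finset.card_pos.2 this

open Classical in
/-- The members of a family that change. -/
noncomputable def chgS {Ω V : Type} [Fintype Ω] (g : Ω → Oracle → V) (A A' : Oracle) :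
    Finset Ω := univ.filter fun ω => g ω A' ≠ g ω A

/-- The number of members of a family that change. -/
noncomputable def chg {Ω V : Type} [Fintype Ω] (g : Ω → Oracle → V) (A A' : Oracle) : ℕ :=
  (chgS g A A').card

theorem mem_chgS {Ω V : Type} [Fintype Ω] {g : Ω → Oracle → V} {A A' : Oracle} {ω : Ω} :
    ω ∈ chgS g A A' ↔ g ω A' ≠ g ω A := by
  unfold chgS
  simp

open Classical in
/-- A family of functions with few questions: a change of a third of the family is expensive. -/
theorem wat_family {Ω V : Type} [Fintype Ω] {g : Ω → Oracle → V} {A : Oracle} {t : ℕ}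
    (hΩ : 0 < Fintype.card Ω) (hg : ∀ ω, AskAt (g ω) A t) :
    WAt A (3 * t) fun A' => Fintype.card Ω ≤ 3 * chg g A A' := by
  unfold chg chgS
  choose C h1 h2 h3 using hg
  have hΩ' : (0 : ℝ) < Fintype.card Ω := by exact_mod_cast hΩ
  refine ⟨univ.biUnion C, fun v => 3 * (univ.filter fun ω => v ∈ C ω).card / Fintype.card Ω,
    ?_, ?_, ?_, ?_⟩
  · intro v hv
    obtain ⟨ω, -, hω⟩ := Finset.mem_biUnion.1 hv
    exact (h2 ω v hω).trans (by omega)
  · intro v
    positivity
  · rw [← sum_div, div_le_iff₀ hΩ', ← mul_sum]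
    have e1 : ∑ v ∈ univ.biUnion C, ((univ.filter fun ω => v ∈ C ω).card : ℝ) =
        ((∑ ω : Ω, ((univ.biUnion C).filter fun v => v ∈ C ω).card : ℕ) : ℝ) := by
      rw [← Nat.cast_sum]
      norm_cast
      exact (Finset.sum_card_bipartiteAbove_eq_sum_card_bipartiteBelow
        (s := univ.biUnion C) (t := (univ : Finset Ω)) (fun v ω => v ∈ C ω))
    have e2 : ∑ ω : Ω, ((univ.biUnion C).filter fun v => v ∈ C ω).card ≤ Fintype.card Ω * t := by
      calc _ ≤ ∑ ω : Ω, t := by
            refine sum_le_sum fun ω _ => (Finset.card_le_card ?_).trans (h1 ω)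
            intro v hv
            exact (Finset.mem_filter.1 hv).2
        _ = _ := by simp
    rw [e1]
    have e3 : ((∑ ω : Ω, ((univ.biUnion C).filter fun v => v ∈ C ω).card : ℕ) : ℝ) ≤
        ((Fintype.card Ω * t : ℕ) : ℝ) := by exact_mod_cast e2
    push_cast at e3 ⊢
    nlinarith
  · intro A' hA'
    rw [← sum_div, le_div_iff₀ hΩ', one_mul, ← mul_sum]
    have e0 : (univ.filter fun ω => g ω A' ≠ g ω A).card ≤
        ∑ v ∈ univ.biUnion C with A v ≠ A' v, (univ.filter fun ω => v ∈ C ω).card := by
      have e1 : (univ.filter fun ω => g ω A' ≠ g ω A) ⊆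
          ((univ.biUnion C).filter fun v => A v ≠ A' v).biUnion
            fun v => univ.filter fun ω => v ∈ C ω := by
        intro ω hω
        have hω' := (Finset.mem_filter.1 hω).2
        have : ∃ v ∈ C ω, A' v ≠ A v := by
          by_contra hno
          push Not at hno
          exact hω' (h3 ω A' hno)
        obtain ⟨v, hv, hv'⟩ := this
        rw [Finset.mem_biUnion]
        exact ⟨v, Finset.mem_filter.2 ⟨Finset.mem_biUnion.2 ⟨ω, mem_univ _, hv⟩,
          fun h => hv' h.symm⟩, Finset.mem_filter.2 ⟨mem_univ _, hv⟩⟩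
      exact (Finset.card_le_card e1).trans Finset.card_biUnion_le
    have e2 : (Fintype.card Ω : ℝ) ≤ ((3 * (univ.filter fun ω => g ω A' ≠ g ω A).card : ℕ) : ℝ) := by
      exact_mod_cast hA'
    have e3 : ((univ.filter fun ω => g ω A' ≠ g ω A).card : ℝ) ≤
        ∑ v ∈ univ.biUnion C with A v ≠ A' v, ((univ.filter fun ω => v ∈ C ω).card : ℝ) := by
      exact_mod_cast e0
    push_cast at e2
    linarith

/-- Among many single changes there is one that is not bad. -/
theorem exists_quiet_wat {T : ℕ} {W : (List Bool → Bool) → Oracle} {bad : Oracle → Prop}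
    (h : WAt (W fun _ => false) T bad) {K : ℕ}
    (hW : ∀ v : List Bool, v.length ≤ T → Cert (fun B => W B v) K) {n : ℕ} (hn : T * K < 2 ^ n) :
    ∃ y : Fin n → Bool, ¬ bad (W fun z => decide (z = true :: List.ofFn y)) := by
  classical
  by_contra hcon
  push Not at hcon
  obtain ⟨F, μ, h1, h2, h3, h4⟩ := h
  have hc : ∀ v ∈ F, ∃ C : Finset (List Bool), C.card ≤ K ∧
      ∀ B' : List Bool → Bool, (∀ i ∈ C, B' i = false) → W B' v = W (fun _ => false) v :=
    fun v hv => hW v (h1 v hv) fun _ => false
  choose! C hC hCW using hc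
  have h5 : ∀ y : Fin n → Bool,
      (1 : ℝ) ≤ ∑ v ∈ F, if true :: List.ofFn y ∈ C v then μ v else 0 := by
    intro y
    refine (h4 _ (hcon y)).trans ?_
    rw [← sum_filter]
    apply sum_le_sum_of_subset_of_nonneg
    · intro v hv
      rw [mem_filter] at hv ⊢
      refine ⟨hv.1, ?_⟩
      by_contra hno
      apply hv.2
      symm
      apply hCW v hv.1
      intro i hi
      have : i ≠ true :: List.ofFn y := by
        rintro rfl
        exact hno hi
      simp [this]
    · intro v _ _
      exact h2 v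
  have h6 : (2 ^ n : ℝ) ≤ ∑ v ∈ F, μ v * K := by
    calc (2 ^ n : ℝ) = ∑ y : Fin n → Bool, (1 : ℝ) := by simp
      _ ≤ ∑ y : Fin n → Bool, ∑ v ∈ F, (if true :: List.ofFn y ∈ C v then μ v else 0) :=
        sum_le_sum fun y _ => h5 y
      _ = ∑ v ∈ F, ∑ y : Fin n → Bool, (if true :: List.ofFn y ∈ C v then μ v else 0) := sum_comm
      _ = ∑ v ∈ F, μ v * (univ.filter fun y : Fin n → Bool => true :: List.ofFn y ∈ C v).card := by
        refine sum_congr rfl fun v _ => ?_
        rw [← sum_filter, sum_const, nsmul_eq_mul, mul_comm]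
      _ ≤ _ := by
        refine sum_le_sum fun v hv => mul_le_mul_of_nonneg_left ?_ (h2 v)
        have h7 : (univ.filter fun y : Fin n → Bool => true :: List.ofFn y ∈ C v).card ≤
            (C v).card := by
          apply Finset.card_le_card_of_injOn fun w => true :: List.ofFn w
          · intro w hw
            simpa using hw
          · intro w _ w' _ h
            simp only [List.cons.injEq, true_and] at h
            exact List.ofFn_injective h
        exact_mod_cast h7.trans (hC v hv)
  rw [← sum_mul] at h6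
  have h7 : (2 ^ n : ℝ) ≤ ((T * K : ℕ) : ℝ) := by
    push_cast
    exact h6.trans (mul_le_mul_of_nonneg_right h3 (Nat.cast_nonneg _))
  have h8 : 2 ^ n ≤ T * K := by exact_mod_cast h7
  omega

/-! ### The old kinds -/

theorem askAt_outcome (A : Oracle) (M : OTM) (x w : List Bool) (t : ℕ) :
    AskAt (fun A => outcome A M x w t) A t := exists_asked A M x w t

/-- The family of outcomes of a machine. -/
def outs (E : SM) (x : List Bool) (w : Fin (E.m.eval x.length) → Bool) (A : Oracle) :
    Option Bool := outcome A E.M x (List.ofFn w) (E.p.eval x.length)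

theorem chg_comm {Ω V : Type} [Fintype Ω] (g : Ω → Oracle → V) (A A' : Oracle) :
    chg g A A' = chg g A' A := by
  unfold chg
  congr 1
  ext w
  rw [mem_chgS, mem_chgS]
  exact ne_comm

theorem acc_le_acc_add {A A' : Oracle} (E : SM) (x : List Bool) :
    E.acc A' x ≤ E.acc A x + chg (outs E x) A A' := by
  classical
  unfold SM.acc accCount chg
  refine (Finset.card_le_card ?_).trans (Finset.card_union_le _ _)
  intro w hw
  rw [mem_filter] at hw
  rw [mem_union, mem_filter]
  replace hw := hw.2
  by_cases hc : outcome A' E.M x (List.ofFn w) (E.p.eval x.length) =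
      outcome A E.M x (List.ofFn w) (E.p.eval x.length)
  · left
    rw [← hc]
    exact ⟨mem_univ _, hw⟩
  · right
    exact mem_chgS.2 hc

theorem wat_sm (E : SM) (A : Oracle) (x : List Bool) :
    WAt A (3 * E.p.eval x.length) fun A' =>
      (2 * E.tot x ≤ 3 * E.acc A x ∧ 3 * E.acc A' x ≤ E.tot x) ∨
      (2 * E.tot x ≤ 3 * E.acc A' x ∧ 3 * E.acc A x ≤ E.tot x) ∨
      (E.tot x ≤ 2 * E.acc A x ∧ E.acc A' x = 0) ∨
      (E.tot x ≤ 2 * E.acc A' x ∧ E.acc A x = 0) := by
  classical
  have hΩ : 0 < Fintype.card (Fin (E.m.eval x.length) → Bool) := by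
    rw [card_fam]
    exact E.tot_pos x
  have h := wat_family (g := outs E x) (A := A) hΩ
    (fun w => askAt_outcome A E.M x (List.ofFn w) _)
  refine h.mono le_rfl ?_
  intro A' hA'
  rw [card_fam]
  have h1 := acc_le_acc_add (A := A) (A' := A') E x
  have h2 := acc_le_acc_add (A := A') (A' := A) E x
  rw [chg_comm] at h2
  omega

theorem wat_wit (E : SM) (A : Oracle) (x : List Bool) (hA : E.acc A x ≠ 0) :
    WAt A (E.p.eval x.length) fun A' => E.acc A' x = 0 := by
  classical
  unfold SM.acc accCount at hA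
  rw [← Nat.pos_iff_ne_zero, Finset.card_pos] at hA
  obtain ⟨w, hw⟩ := hA
  rw [mem_filter] at hw
  refine (askAt_outcome A E.M x (List.ofFn w) _).wat.mono le_rfl ?_
  intro A' hA' h
  unfold SM.acc accCount at hA'
  rw [Finset.card_eq_zero, Finset.filter_eq_empty_iff] at hA'
  apply hA' (mem_univ w)
  rw [h]
  exact hw.2

theorem weighed_verdict (e : Sem) (x : List Bool) :
    Weighed (fun A => verdict e A x) (3 * e.bd x.length) := by
  classical
  rw [weighed_iff]
  intro A hA
  obtain ⟨k, E, E'⟩ := e
  have hb : 3 * E.p.eval x.length ≤ 3 * Sem.bd (k, E, E') x.length := by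
    simp only [Sem.bd]
    omega
  cases k with
  | rp =>
    refine (wat_sm E A x).mono hb ?_
    rintro A' ⟨h1, h2⟩
    simp only [verdict] at hA h1 h2
    have := E.tot_pos x
    split_ifs at hA h1 h2 <;> first | omega | (exfalso; simp at hA h1 h2)
  | bpp =>
    refine (wat_sm E A x).mono hb ?_
    rintro A' ⟨h1, h2⟩
    simp only [verdict] at hA h1 h2
    have := E.tot_pos x
    split_ifs at hA h1 h2 <;> first | omega | (exfalso; simp at hA h1 h2)
  | npc =>
    simp only [verdict] at hA
    split_ifs at hA with h2 h3 h4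
    · refine (wat_wit E A x h3.1).mono (by simp only [Sem.bd]; omega) ?_
      rintro A' ⟨h5, h6⟩
      simp only [verdict] at h5 h6
      split_ifs at h5 h6 with h7 h8 h9 <;> first | exact h9.1 | skip
      all_goals simp_all
    · refine (wat_wit E' A x h4.2).mono (by simp only [Sem.bd]; omega) ?_
      rintro A' ⟨h5, h6⟩
      simp only [verdict] at h5 h6
      split_ifs at h5 h6 with h7 h8 h9 <;> first | exact h8.2 | skip
      all_goals simp_all
    · exact absurd rfl hA
    · exact absurd rfl hA

theorem local_verdict (e : Sem) (x : List Bool) :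
    Local (fun A => verdict e A x) (3 * e.bd x.length) := by
  intro A A' h
  exact verdict_congr fun v hv => h v (by omega)

end Pool.Agent.Y593.Q
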