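import Pool.Agent.Y593.Q.Dev
import Pool.Agent.Y593.Q.Defs

/-!
# Weights of verifiers of interactive proofs
-/

set_option autoImplicit false

namespace Pool.Agent.Y593.Q

open H556R2 Finset

/-- A strategy of the prover, given as the list of the histories it leads to. -/
theorem exists_strategy (a : List Bool → ℕ) : ∀ (k : ℕ) (h : List Bool),
    ∃ ts : List (List Bool), ts.length = 2 ^ k ∧ cval a k h = (ts.map a).sum ∧
      ∀ a' : List Bool → ℕ, (ts.map a').sum ≤ cval a' k h := by
  intro k
  induction k with
  | zero =>
    intro h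
    exact ⟨[h], by simp, by simp [cval], fun a' => by simp [cval]⟩
  | succ k ih =>
    intro h
    have key : ∀ b : Bool, ∃ ts : List (List Bool), ts.length = 2 ^ k ∧
        max (cval a k (h ++ [b, false])) (cval a k (h ++ [b, true])) = (ts.map a).sum ∧
        ∀ a' : List Bool → ℕ, (ts.map a').sum ≤
          max (cval a' k (h ++ [b, false])) (cval a' k (h ++ [b, true])) := by
      intro b
      rcases le_total (cval a k (h ++ [b, false])) (cval a k (h ++ [b, true])) with hle | hle
      · obtain ⟨ts, h1, h2, h3⟩ := ih (h ++ [b, true])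
        exact ⟨ts, h1, by rw [max_eq_right hle, h2], fun a' => (h3 a').trans (le_max_right _ _)⟩
      · obtain ⟨ts, h1, h2, h3⟩ := ih (h ++ [b, false])
        exact ⟨ts, h1, by rw [max_eq_left hle, h2], fun a' => (h3 a').trans (le_max_left _ _)⟩
    obtain ⟨ts, h1, h2, h3⟩ := key false
    obtain ⟨ts', h1', h2', h3'⟩ := key true
    refine ⟨ts ++ ts', ?_, ?_, ?_⟩
    · rw [List.length_append, h1, h1', pow_succ]
      ring
    · rw [List.map_append, List.sum_append, ← h2, ← h2']
      rfl
    · intro a'
      rw [List.map_append, List.sum_append]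
      exact Nat.add_le_add (h3 a') (h3' a')

/-- The family of outcomes along a strategy. -/
def stratOuts (E : PM) (x : List Bool) (ts : List (List Bool))
    (ir : Fin ts.length × (Fin (E.m.eval x.length) → Bool)) (A : Oracle) : Option Bool :=
  outcome A E.M x (ts[ir.1] ++ List.ofFn ir.2) (E.p.eval x.length)

theorem sum_pay_eq (E : PM) (A : Oracle) (x : List Bool) (ts : List (List Bool)) :
    (ts.map (E.pay A x)).sum =
      (univ.filter fun ir : Fin ts.length × (Fin (E.m.eval x.length) → Bool) =>
        stratOuts E x ts ir A = some true).card := by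
  have h1 : (ts.map (E.pay A x)).sum = ∑ i : Fin ts.length, E.pay A x ts[i] := by
    simp
  rw [h1]
  have h2 : (univ.filter fun ir : Fin ts.length × (Fin (E.m.eval x.length) → Bool) =>
        stratOuts E x ts ir A = some true).card = ∑ i : Fin ts.length,
      ((univ.filter fun ir : Fin ts.length × (Fin (E.m.eval x.length) → Bool) =>
        stratOuts E x ts ir A = some true).filter fun ir => ir.1 = i).card :=
    Finset.card_eq_sum_card_fiberwise fun _ _ => Finset.mem_coe.2 (mem_univ _)
  rw [h2]
  refine sum_congr rfl fun i _ => ?_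
  unfold PM.pay
  symm
  apply Finset.card_bij (fun ir _ => ir.2)
  · intro ir hir
    obtain ⟨h3, h4⟩ := Finset.mem_filter.1 hir
    have h5 := (Finset.mem_filter.1 h3).2
    rw [← h4]
    exact Finset.mem_filter.2 ⟨mem_univ _, h5⟩
  · rintro ⟨i1, r1⟩ h1 ⟨i2, r2⟩ h2 h
    have h3 : i1 = i := (Finset.mem_filter.1 h1).2
    have h4 : i2 = i := (Finset.mem_filter.1 h2).2
    simp only at h
    rw [h, h3, h4]
  · intro r hr
    have h3 := (Finset.mem_filter.1 hr).2
    exact ⟨(i, r), Finset.mem_filter.2 ⟨Finset.mem_filter.2 ⟨mem_univ _, h3⟩, rfl⟩, rfl⟩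

theorem wat_pm (E : PM) (A : Oracle) (x : List Bool) :
    WAt A (3 * E.p.eval x.length) fun A' =>
      2 * E.tot x.length ≤ 3 * E.val A x ∧ 3 * E.val A' x ≤ E.tot x.length := by
  classical
  obtain ⟨ts, h1, h2, h3⟩ := exists_strategy (E.pay A x) (E.k.eval x.length) []
  have hcard : Fintype.card (Fin ts.length × (Fin (E.m.eval x.length) → Bool)) =
      E.tot x.length := by
    simp [h1, PM.tot, pow_add]
  have hΩ : 0 < Fintype.card (Fin ts.length × (Fin (E.m.eval x.length) → Bool)) := by
    rw [hcard]
    unfold PM.tot
    positivity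
  refine (wat_family (g := stratOuts E x ts) (A := A) hΩ
    (fun ir => askAt_outcome A E.M x _ _)).mono le_rfl ?_
  rintro A' ⟨h4, h5⟩
  rw [hcard]
  have h6 : E.val A x = (univ.filter fun ir : Fin ts.length × (Fin (E.m.eval x.length) → Bool) =>
        stratOuts E x ts ir A = some true).card := by
    unfold PM.val
    rw [h2, sum_pay_eq]
  have h7 : (univ.filter fun ir : Fin ts.length × (Fin (E.m.eval x.length) → Bool) =>
        stratOuts E x ts ir A' = some true).card ≤ E.val A' x := by
    unfold PM.val
    rw [← sum_pay_eq]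
    exact h3 _
  have h8 : (univ.filter fun ir : Fin ts.length × (Fin (E.m.eval x.length) → Bool) =>
        stratOuts E x ts ir A = some true).card ≤
      (univ.filter fun ir : Fin ts.length × (Fin (E.m.eval x.length) → Bool) =>
        stratOuts E x ts ir A' = some true).card + chg (stratOuts E x ts) A A' := by
    unfold chg
    refine (Finset.card_le_card ?_).trans (Finset.card_union_le _ _)
    intro w hw
    rw [mem_filter] at hw
    rw [mem_union, mem_filter, mem_chgS]
    by_cases hc : stratOuts E x ts w A' = stratOuts E x ts w A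
    · left
      rw [hc]
      exact hw
    · right
      exact hc
  omega

theorem pay_congr (E : PM) {A A' : Oracle} (x : List Bool)
    (h : ∀ v : List Bool, v.length ≤ E.p.eval x.length → A v = A' v) :
    E.pay A x = E.pay A' x := by
  funext u
  unfold PM.pay
  congr 1
  ext r
  simp only [mem_filter, mem_univ, true_and]
  rw [outcome_congr h]

theorem val_congr (E : PM) {A A' : Oracle} (x : List Bool)
    (h : ∀ v : List Bool, v.length ≤ E.p.eval x.length → A v = A' v) :
    E.val A x = E.val A' x := by
  unfold PM.val
  rw [pay_congr E x h]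

end Pool.Agent.Y593.Q
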