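import Pool.Agent.H556R2.Sem

/-!
# Functions of oracles that put bounded weight on the strings of the oracle
-/

set_option autoImplicit false

namespace Pool.Agent.Y593.Q

open H556R2 Finset

/-- For every oracle `A` there is a weight of total at most `T` on strings of length at most `T`
such that a change of the value of `f` (from one defined value to another one) needs changes of
the oracle of weight at least `1`. -/
def Weighed (f : Oracle → Option Bool) (T : ℕ) : Prop :=
  ∀ A : Oracle, f A ≠ none → ∃ (F : Finset (List Bool)) (μ : List Bool → ℝ),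
    (∀ v ∈ F, v.length ≤ T) ∧ (∀ v, 0 ≤ μ v) ∧ ∑ v ∈ F, μ v ≤ T ∧
    ∀ A' : Oracle, f A' ≠ none → f A' ≠ f A → 1 ≤ ∑ v ∈ F with A v ≠ A' v, μ v

/-- The value only depends on the strings of length at most `T`. -/
def Local (f : Oracle → Option Bool) (T : ℕ) : Prop :=
  ∀ A A' : Oracle, (∀ v : List Bool, v.length ≤ T → A v = A' v) → f A = f A'

theorem Weighed.mono {f : Oracle → Option Bool} {T T' : ℕ} (h : Weighed f T) (hT : T ≤ T') :
    Weighed f T' := by
  intro A hA
  obtain ⟨F, μ, h1, h2, h3, h4⟩ := h A hA
  exact ⟨F, μ, fun v hv => (h1 v hv).trans hT, h2, h3.trans (by exact_mod_cast hT), h4⟩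

theorem Local.mono {f : Oracle → Option Bool} {T T' : ℕ} (h : Local f T) (hT : T ≤ T') :
    Local f T' := fun A A' hA => h A A' fun v hv => hA v (hv.trans hT)

section
variable {ι : Type} [DecidableEq ι]

/-- Disjoint families of sensitive blocks are small. -/
theorem fam_le {f : Oracle → Option Bool} {T : ℕ} (hf : Weighed f T) {W : (ι → Bool) → Oracle}
    {K : ℕ} (hW : ∀ v : List Bool, v.length ≤ T → Cert (fun B => W B v) K)
    (hne : ∀ B, f (W B) ≠ none) (B : ι → Bool) (fam : Finset (Finset ι))
    (hd : ∀ S ∈ fam, ∀ S' ∈ fam, S ≠ S' → Disjoint S S')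
    (hs : ∀ S ∈ fam, f (W (flipOn B S)) ≠ f (W B)) : fam.card ≤ T * K := by
  classical
  obtain ⟨F, μ, h1, h2, h3, h4⟩ := hf (W B) (hne B)
  have hc : ∀ v ∈ F, ∃ C : Finset ι, C.card ≤ K ∧
      ∀ B' : ι → Bool, (∀ i ∈ C, B' i = B i) → W B' v = W B v := fun v hv => hW v (h1 v hv) B
  choose! C hC hCW using hc
  have h5 : ∀ S ∈ fam, (1 : ℝ) ≤ ∑ v ∈ F, if ¬ Disjoint (C v) S then μ v else 0 := by
    intro S hS
    refine (h4 _ (hne _) (hs S hS)).trans ?_
    rw [← sum_filter]
    apply sum_le_sum_of_subset_of_nonneg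
    · intro v hv
      rw [mem_filter] at hv ⊢
      refine ⟨hv.1, fun hdis => hv.2 ?_⟩
      symm
      apply hCW v hv.1
      intro i hi
      rw [Finset.disjoint_left] at hdis
      simp [flipOn, hdis hi]
    · intro v _ _
      exact h2 v
  have h6 : (fam.card : ℝ) ≤ ∑ v ∈ F, μ v * K := by
    calc (fam.card : ℝ) = ∑ S ∈ fam, (1 : ℝ) := by simp
      _ ≤ ∑ S ∈ fam, ∑ v ∈ F, (if ¬ Disjoint (C v) S then μ v else 0) := sum_le_sum h5
      _ = ∑ v ∈ F, ∑ S ∈ fam, (if ¬ Disjoint (C v) S then μ v else 0) := sum_comm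
      _ = ∑ v ∈ F, μ v * (fam.filter fun S => ¬ Disjoint (C v) S).card := by
        refine sum_congr rfl fun v _ => ?_
        rw [← sum_filter, sum_const, nsmul_eq_mul, mul_comm]
      _ ≤ _ := by
        refine sum_le_sum fun v hv => mul_le_mul_of_nonneg_left ?_ (h2 v)
        exact_mod_cast (card_hit_le fam hd (C v)).trans (hC v hv)
  rw [← sum_mul] at h6
  have h7 : (fam.card : ℝ) ≤ (T * K : ℕ) := by
    push_cast
    exact h6.trans (mul_le_mul_of_nonneg_right h3 (Nat.cast_nonneg _))
  exact_mod_cast h7

/-- Weighed functions have small certificates on families without undefined values. -/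
theorem cert_of_weighed {f : Oracle → Option Bool} {T : ℕ} (hf : Weighed f T) (hl : Local f T)
    {W : (ι → Bool) → Oracle} {K : ℕ}
    (hW : ∀ v : List Bool, v.length ≤ T → Cert (fun B => W B v) K)
    (hne : ∀ B, f (W B) ≠ none) :
    Cert (fun B => decide (f (W B) = some true)) ((T * K) * (T * K)) := by
  classical
  have hiff : ∀ B B' : ι → Bool, decide (f (W B') = some true) ≠ decide (f (W B) = some true) ↔
      f (W B') ≠ f (W B) := by
    intro B B'
    obtain ⟨b, hb⟩ := Option.ne_none_iff_exists'.1 (hne B)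
    obtain ⟨b', hb'⟩ := Option.ne_none_iff_exists'.1 (hne B')
    rw [hb, hb']
    cases b <;> cases b' <;> simp
  intro B
  apply certAt_of_blocks
  · intro B' hB'
    -- a finite sensitive block
    have hex : ∃ k, ∃ S : Finset ι, S.card = k ∧ (∀ i ∈ S, B' i ≠ B i) ∧
        f (W (flipOn B S)) ≠ f (W B) := by
      have hc : ∀ v : List Bool, v.length ≤ T → ∃ S : Finset ι,
          ∀ B'' : ι → Bool, (∀ i ∈ S, B'' i = B' i) → W B'' v = W B' v := fun v hv => by
        obtain ⟨S, -, hS⟩ := hW v hv B'
        exact ⟨S, hS⟩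
      choose! C hC using hc
      let U := (List.finite_length_le Bool T).toFinset.biUnion C
      refine ⟨_, U.filter fun i => B' i ≠ B i, rfl, ?_, ?_⟩
      · intro i hi
        exact (Finset.mem_filter.1 hi).2
      · have h1 : f (W (flipOn B (U.filter fun i => B' i ≠ B i))) = f (W B') := by
          apply hl
          intro v hv
          apply hC v hv
          intro i hi
          have hiU : i ∈ U := Finset.mem_biUnion.2 ⟨v, by simpa using hv, hi⟩
          simp only [flipOn, Finset.mem_filter, hiU, true_and]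
          split_ifs with hc
          · revert hc
            cases B' i <;> cases B i <;> simp
          · push Not at hc
            exact hc.symm
        rw [h1]
        exact (hiff B B').1 hB'
    obtain ⟨S, hSk, hSB, hSf⟩ := Nat.find_spec hex
    have hmin : ∀ S' : Finset ι, (∀ i ∈ S', B' i ≠ B i) → S'.card < S.card →
        f (W (flipOn B S')) = f (W B) := by
      intro S' hS' hSS'
      by_contra hne'
      rw [hSk] at hSS'
      exact Nat.find_min hex hSS' ⟨S', rfl, hS', hne'⟩
    refine ⟨S, ?_, hSB, (hiff B _).2 hSf⟩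
    have h1 := fam_le hf hW hne (flipOn B S) (S.image fun i => {i}) ?_ ?_
    · rwa [Finset.card_image_of_injective _ (Finset.singleton_injective)] at h1
    · intro S' hS' T' hT' hne'
      rw [Finset.mem_image] at hS' hT'
      obtain ⟨i, _, rfl⟩ := hS'
      obtain ⟨j, _, rfl⟩ := hT'
      rw [Finset.disjoint_singleton]
      intro hij
      exact hne' (by rw [hij])
    · intro S' hS'
      rw [Finset.mem_image] at hS'
      obtain ⟨i, hi, rfl⟩ := hS'
      rw [flipOn_flipOn_singleton B S hi]
      rw [hmin (S.erase i) (fun j hj => hSB j (Finset.mem_of_mem_erase hj))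
        (Finset.card_erase_lt_of_mem hi)]
      exact hSf.symm
  · intro fam hd hs
    exact fam_le hf hW hne B fam hd fun S hS => (hiff B _).1 (hs S hS)

end

/-- Among many single changes there is one that does not matter. -/
theorem exists_quiet {f : Oracle → Option Bool} {T : ℕ} (hf : Weighed f T)
    {W : (List Bool → Bool) → Oracle} {K : ℕ}
    (hW : ∀ v : List Bool, v.length ≤ T → Cert (fun B => W B v) K) {n : ℕ} (hn : T * K < 2 ^ n)
    (h0 : f (W fun _ => false) ≠ none) :
    ∃ y : Fin n → Bool, f (W fun z => decide (z = true :: List.ofFn y)) = none ∨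
      f (W fun z => decide (z = true :: List.ofFn y)) = f (W fun _ => false) := by
  classical
  by_contra hcon
  push Not at hcon
  obtain ⟨F, μ, h1, h2, h3, h4⟩ := hf _ h0
  have hc : ∀ v ∈ F, ∃ C : Finset (List Bool), C.card ≤ K ∧
      ∀ B' : List Bool → Bool, (∀ i ∈ C, B' i = false) → W B' v = W (fun _ => false) v :=
    fun v hv => hW v (h1 v hv) fun _ => false
  choose! C hC hCW using hc
  have h5 : ∀ y : Fin n → Bool,
      (1 : ℝ) ≤ ∑ v ∈ F, if true :: List.ofFn y ∈ C v then μ v else 0 := by
    intro y
    refine (h4 _ (hcon y).1 (hcon y).2).trans ?_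
    rw [← sum_filter]
    apply sum_le_sum_of_subset_of_nonneg
    · intro v hv
      rw [mem_filter] at hv ⊢
      refine ⟨hv.1, ?_⟩
      by_contra hno
      apply hv.2
      symm
      apply hCW v hv.1
      intro i hi
      have : i ≠ true :: List.ofFn y := by
        rintro rfl
        exact hno hi
      simp [this]
    · intro v _ _
      exact h2 v
  have h6 : (2 ^ n : ℝ) ≤ ∑ v ∈ F, μ v * K := by
    calc (2 ^ n : ℝ) = ∑ y : Fin n → Bool, (1 : ℝ) := by simp
      _ ≤ ∑ y : Fin n → Bool, ∑ v ∈ F, (if true :: List.ofFn y ∈ C v then μ v else 0) :=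
        sum_le_sum fun y _ => h5 y
      _ = ∑ v ∈ F, ∑ y : Fin n → Bool, (if true :: List.ofFn y ∈ C v then μ v else 0) := sum_comm
      _ = ∑ v ∈ F, μ v * (univ.filter fun y : Fin n → Bool => true :: List.ofFn y ∈ C v).card := by
        refine sum_congr rfl fun v _ => ?_
        rw [← sum_filter, sum_const, nsmul_eq_mul, mul_comm]
      _ ≤ _ := by
        refine sum_le_sum fun v hv => mul_le_mul_of_nonneg_left ?_ (h2 v)
        have h7 : (univ.filter fun y : Fin n → Bool => true :: List.ofFn y ∈ C v).card ≤
            (C v).card := by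
          apply Finset.card_le_card_of_injOn fun w => true :: List.ofFn w
          · intro w hw
            simpa using hw
          · intro w _ w' _ h
            simp only [List.cons.injEq, true_and] at h
            exact List.ofFn_injective h
        exact_mod_cast h7.trans (hC v hv)
  rw [← sum_mul] at h6
  have h7 : (2 ^ n : ℝ) ≤ ((T * K : ℕ) : ℝ) := by
    push_cast
    exact h6.trans (mul_le_mul_of_nonneg_right h3 (Nat.cast_nonneg _))
  have h8 : 2 ^ n ≤ T * K := by exact_mod_cast h7
  omega

end Pool.Agent.Y593.Q
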